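import Pool.Agent.L7h2.ME.Stm

/-!
# Project ME, part (AEP): almost every polynomial, by Fubini's theorem

If a measurable property `P` holds at `c + T α` for every `c` and almost every `α`, then it holds for almost
every `c`: for almost every `α` it holds at `c + T α` for almost every `c`, and the measure is invariant.
-/

set_option autoImplicit false

namespace Pool.Agent.L7h21.ME

open Finset Filter Topology MeasureTheory
open Pool.Agent.L7h2.ME

/-- the number of the elements of a finite set with a measurable property is measurable -/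
lemma meas_card {Ω : Type*} [MeasurableSpace Ω] (s : Finset ℕ) (p : ℕ → Ω → Prop)
    [inst : ∀ ω, DecidablePred (fun n => p n ω)] (hp : ∀ n, MeasurableSet {ω | p n ω}) :
    Measurable (fun ω => (#(s.filter (fun n => p n ω)) : ℝ)) := by
  classical
  have h1 : (fun ω => (#(s.filter (fun n => p n ω)) : ℝ)) =
      fun ω => ∑ n ∈ s, if p n ω then (1 : ℝ) else 0 := by
    funext ω
    rw [card_filter]
    push_cast
    exact sum_congr rfl fun n _ => by congr
  rw [h1]
  exact Finset.measurable_sum _ fun n _ => Measurable.ite (hp n) measurable_const measurable_const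

/-- invariance of the property `almost everywhere` -/
lemma ae_of_shift {V W : Type*} [MeasurableSpace V] [MeasurableSpace W] [AddGroup V]
    [MeasurableAdd₂ V] (μ : Measure V) [SFinite μ] [μ.IsAddRightInvariant]
    (ν : Measure W) [SFinite ν] [NeZero ν] (T : W → V) (hT : Measurable T) (P : V → Prop)
    (hP : MeasurableSet {c | P c}) (h : ∀ c, ∀ᵐ α ∂ν, P (c + T α)) : ∀ᵐ c ∂μ, P c := by
  have hm : MeasurableSet {z : V × W | ¬ P (z.1 + T z.2)} :=
    (measurable_fst.add (hT.comp measurable_snd)) hP.compl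
  have h1 : (μ.prod ν) {z : V × W | ¬ P (z.1 + T z.2)} = 0 := by
    rw [Measure.measure_prod_null hm]
    exact Eventually.of_forall fun c => h c
  have h2 : ∀ᵐ z ∂(μ.prod ν), P (z.1 + T z.2) := by
    rw [ae_iff]
    exact h1
  have h3 : ∀ᵐ z ∂(ν.prod μ), P (z.2 + T z.1) := by
    have h4 := Measure.measurePreserving_swap (μ := ν) (ν := μ)
    exact h4.quasiMeasurePreserving.ae h2
  have h4 := Measure.ae_ae_of_ae_prod h3
  obtain ⟨α, hα⟩ := h4.exists
  have h5 := (measurePreserving_add_right μ (-(T α))).quasiMeasurePreserving.ae hα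
  filter_upwards [h5] with c hc
  simpa using hc

/-- the vector with the last entries `α` -/
noncomputable def TT {k : ℕ} (d : Fin k → ℕ) (α : Fin k → ℝ) : (i : Fin k) → Fin (d i + 1) → ℝ :=
  fun i j => if j = Fin.last (d i) then α i else 0

lemma meas_TT {k : ℕ} (d : Fin k → ℕ) : Measurable (TT d) := by
  refine measurable_pi_lambda _ fun i => measurable_pi_lambda _ fun j => ?_
  unfold TT
  split_ifs
  · exact measurable_pi_apply i
  · exact measurable_const

lemma pol_eval {d : ℕ} (c : Fin (d + 1) → ℝ) (x : ℝ) :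
    (pol c).eval x = ∑ j : Fin (d + 1), c j * x ^ (j : ℕ) := by
  unfold pol
  simp [Polynomial.eval_finsetSum]

lemma pol_TT {k : ℕ} (d : Fin k → ℕ) (c : (i : Fin k) → Fin (d i + 1) → ℝ) (α : Fin k → ℝ)
    (i : Fin k) (x : ℝ) :
    (pol ((c + TT d α) i)).eval x = α i * x ^ d i + (pol (c i)).eval x := by
  rw [pol_eval, pol_eval]
  have h1 : ∀ j : Fin (d i + 1), (c + TT d α) i j * x ^ (j : ℕ) =
      (if j = Fin.last (d i) then α i * x ^ (d i) else 0) + c i j * x ^ (j : ℕ) := by
    intro j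
    simp only [Pi.add_apply, TT]
    split_ifs with h
    · rw [h, Fin.val_last]
      ring
    · ring
  rw [sum_congr rfl fun j _ => h1 j, sum_add_distrib, sum_ite_eq']
  simp

lemma pol_coeff {d : ℕ} (c : Fin (d + 1) → ℝ) : (pol c).coeff d = c (Fin.last d) := by
  unfold pol
  rw [Polynomial.finsetSum_coeff, Finset.sum_eq_single (Fin.last d)]
  · simp
  · intro j _ hj
    rw [Polynomial.coeff_C_mul, Polynomial.coeff_X_pow, if_neg, mul_zero]
    intro h
    exact hj (Fin.ext (by rw [Fin.val_last]; exact h.symm))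
  · simp

lemma pol_deg {d : ℕ} (c : Fin (d + 1) → ℝ) : (pol c).natDegree ≤ d := by
  unfold pol
  refine Polynomial.natDegree_sum_le_of_forall_le _ _ fun j _ => ?_
  exact (Polynomial.natDegree_C_mul_X_pow_le _ _).trans (by have := j.2; omega)

open Classical in
/-- the property of `S_AEP` -/
def PP {k : ℕ} (d : Fin k → ℕ) (κ : ℝ) (c : (i : Fin k) → Fin (d i + 1) → ℝ) : Prop :=
  (∀ i, 0 < c i (Fin.last (d i))) →
    ∃ᶠ J : ℕ in atTop, κ * J ≤ #((range J).filter (fun j => κ * (2 : ℝ) ^ j / Real.log (2 ^ j) ^ k ≤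
      (#((Ioc (2 ^ j) (2 * 2 ^ j)).filter
        (fun n => ∀ i, IsPr (pr n + 2 * ⌊(pol (c i)).eval (n : ℝ)⌋))) : ℝ)))

lemma meas_PP {k : ℕ} (d : Fin k → ℕ) (κ : ℝ) : MeasurableSet {c | PP d κ c} := by
  classical
  have h0 : MeasurableSet {c : (i : Fin k) → Fin (d i + 1) → ℝ |
      ∀ i, 0 < c i (Fin.last (d i))} := by
    rw [Set.ofPred_forall]
    refine MeasurableSet.iInter fun i => ?_
    exact measurableSet_lt measurable_const
      ((measurable_pi_apply (Fin.last (d i))).comp (measurable_pi_apply i))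
  have h1 : ∀ n : ℕ, MeasurableSet {c : (i : Fin k) → Fin (d i + 1) → ℝ |
      ∀ i, IsPr (pr n + 2 * ⌊(pol (c i)).eval (n : ℝ)⌋)} := by
    intro n
    rw [Set.ofPred_forall]
    refine MeasurableSet.iInter fun i => ?_
    have h2 : Measurable (fun c : (i : Fin k) → Fin (d i + 1) → ℝ =>
        ⌊(pol (c i)).eval (n : ℝ)⌋) := by
      apply Measurable.floor
      simp only [pol_eval]
      refine Finset.measurable_sum _ fun j _ => ?_
      exact ((measurable_pi_apply j).comp (measurable_pi_apply i)).mul_const _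
    exact h2 (MeasurableSet.of_discrete (s := {m : ℤ | IsPr (pr n + 2 * m)}))
  have h2 : ∀ j : ℕ, MeasurableSet {c : (i : Fin k) → Fin (d i + 1) → ℝ |
      κ * (2 : ℝ) ^ j / Real.log (2 ^ j) ^ k ≤
      (#((Ioc (2 ^ j) (2 * 2 ^ j)).filter
        (fun n => ∀ i, IsPr (pr n + 2 * ⌊(pol (c i)).eval (n : ℝ)⌋))) : ℝ)} := by
    intro j
    exact measurableSet_le measurable_const (meas_card (Ioc (2 ^ j) (2 * 2 ^ j))
      (fun n (c : (i : Fin k) → Fin (d i + 1) → ℝ) =>
        ∀ i, IsPr (pr n + 2 * ⌊(pol (c i)).eval (n : ℝ)⌋)) h1)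
  have h3 : ∀ J : ℕ, MeasurableSet {c : (i : Fin k) → Fin (d i + 1) → ℝ |
      κ * J ≤ #((range J).filter (fun j => κ * (2 : ℝ) ^ j / Real.log (2 ^ j) ^ k ≤
      (#((Ioc (2 ^ j) (2 * 2 ^ j)).filter
        (fun n => ∀ i, IsPr (pr n + 2 * ⌊(pol (c i)).eval (n : ℝ)⌋))) : ℝ)))} := by
    intro J
    exact measurableSet_le measurable_const (meas_card (range J)
      (fun j (c : (i : Fin k) → Fin (d i + 1) → ℝ) =>
        κ * (2 : ℝ) ^ j / Real.log (2 ^ j) ^ k ≤
      (#((Ioc (2 ^ j) (2 * 2 ^ j)).filter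
        (fun n => ∀ i, IsPr (pr n + 2 * ⌊(pol (c i)).eval (n : ℝ)⌋))) : ℝ)) h2)
  have h4 := MeasurableSet.measurableSet_limsup h3
  have h5 : {c | PP d κ c} = {c : (i : Fin k) → Fin (d i + 1) → ℝ |
      ∀ i, 0 < c i (Fin.last (d i))}ᶜ ∪ limsup (fun J : ℕ =>
        {c : (i : Fin k) → Fin (d i + 1) → ℝ |
      κ * J ≤ #((range J).filter (fun j => κ * (2 : ℝ) ^ j / Real.log (2 ^ j) ^ k ≤
      (#((Ioc (2 ^ j) (2 * 2 ^ j)).filter
        (fun n => ∀ i, IsPr (pr n + 2 * ⌊(pol (c i)).eval (n : ℝ)⌋))) : ℝ)))}) atTop := by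
    ext c
    rw [Set.mem_union, Set.mem_compl_iff, mem_limsup_iff_frequently_mem, Set.mem_ofPred_eq,
      Set.mem_ofPred_eq]
    unfold PP
    rw [imp_iff_not_or]
    rfl
  rw [h5]
  exact h0.compl.union h4

theorem s_AEP (h : S_FIN) : S_AEP := by
  classical
  intro k d hd
  obtain ⟨κ, hκ, h1⟩ := h k d hd
  refine ⟨κ, hκ, ?_⟩
  have h2 := ae_of_shift (volume : Measure ((i : Fin k) → Fin (d i + 1) → ℝ))
    (volume : Measure (Fin k → ℝ)) (TT d) (meas_TT d) (PP d κ) (meas_PP d κ) (by
      intro c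
      filter_upwards [h1 (fun i => pol (c i)) (fun i => (pol_deg _).trans (Nat.le_succ _))] with α hα
      intro h3
      have h4 := hα (fun i => Or.inr ⟨Polynomial.coeff_eq_zero_of_natDegree_lt
        ((pol_deg _).trans_lt (Nat.lt_succ_self _)), by
          have h5 := h3 i
          simp only [Pi.add_apply, TT, if_true] at h5
          rw [pol_coeff]
          exact h5⟩)
      refine h4.mono fun J hJ => ?_
      simp only [cnt] at hJ
      simp only [pol_TT]
      convert hJ using 2)
  filter_upwards [h2] with c hc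
  exact hc

end Pool.Agent.L7h21.ME
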