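import Pool.Agent.L7h21.ME.Pts0
import Pool.Agent.L7h29.BP.Bvj
import Pool.Agent.L7h18.BP.All
import Pool.Agent.L7h18.BW.Poor

/-!
# Project ME, part (PTS)
-/

set_option autoImplicit false

namespace Pool.Agent.L7h21.ME

open Finset
open Pool.Agent.L7h2.ME (S_PTS)

theorem piece : Piece := by
  obtain ⟨δ, c, hδ, hc, h⟩ :=
    Pool.Agent.L7h29.BP.s_BVJ Pool.Agent.L7h18.BP.bvp Pool.Agent.L7h18.BW.s_POOR
  obtain ⟨X₀, h⟩ := h 0
  refine ⟨δ, c, hδ, hc, X₀, fun X hX => ?_⟩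
  obtain ⟨B, hB, h1⟩ := h X hX
  refine ⟨B, hB, fun x y h2 h3 h4 h5 h6 => ?_⟩
  have h7 := (h1 x y h2 h3 h4 h5 h6).1
  have h8 : Pool.Agent.L7h18.BP.thI x y 1 0 = Pool.Agent.L7h2.ME.th x y := by
    unfold Pool.Agent.L7h18.BP.thI Pool.Agent.L7h2.ME.th
    refine sum_congr (filter_congr fun p _ => ?_) fun _ _ => rfl
    simp [Nat.modEq_one]
  rwa [h8] at h7

theorem s_PTS : S_PTS := pts_of_piece piece

end Pool.Agent.L7h21.ME
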