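import Pool.Agent.L7h2.ME.Stm

/-!
# Project ME, part (PTS): cutting intervals at exceptional points
-/

set_option autoImplicit false

namespace Pool.Agent.L7h21.ME

open Finset Filter Topology
open Pool.Agent.L7h2.ME

lemma th_nonneg (x y : ℕ) : 0 ≤ th x y :=
  sum_nonneg fun p _ => Real.log_natCast_nonneg p

/-- two disjoint parts of an interval -/
lemma th_cut {x y b : ℕ} (hb1 : x ≤ b) (hb2 : b ≤ y) : th x (b - 1) + th (b + 1) y ≤ th x y := by
  have hd : Disjoint ((Ioo x (b - 1)).filter Nat.Prime) ((Ioo (b + 1) y).filter Nat.Prime) := by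
    rw [disjoint_left]
    intro p h1 h2
    rw [mem_filter, mem_Ioo] at h1 h2
    omega
  rw [th, th, ← sum_union hd, th]
  apply sum_le_sum_of_subset_of_nonneg
  · intro p hp
    rw [mem_union, mem_filter, mem_filter, mem_Ioo, mem_Ioo] at hp
    rw [mem_filter, mem_Ioo]
    rcases hp with hp | hp
    · exact ⟨⟨hp.1.1, by omega⟩, hp.2⟩
    · exact ⟨⟨by omega, hp.1.2⟩, hp.2⟩
  · exact fun p _ _ => Real.log_natCast_nonneg p

/-- the induction over the number of the exceptional points -/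
lemma cut_ind (B : Finset ℕ) (c W : ℝ) (X Y : ℕ) (hX : 1 ≤ X)
    (h0 : ∀ x y : ℕ, X ≤ x → y ≤ Y → Disjoint B (Icc x y) → c * ((y : ℝ) - x - W) ≤ th x y) :
    ∀ k : ℕ, ∀ x y : ℕ, X ≤ x → y ≤ Y → #(B ∩ Icc x y) ≤ k →
      c * ((y : ℝ) - x - (#(B ∩ Icc x y) + 1) * W - 2 * #(B ∩ Icc x y)) ≤ th x y := by
  intro k
  induction k with
  | zero =>
    intro x y hx hy hk
    have h1 : B ∩ Icc x y = ∅ := card_eq_zero.1 (Nat.le_zero.1 hk)
    have h2 := h0 x y hx hy (disjoint_iff_inter_eq_empty.2 h1)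
    rw [h1, card_empty, Nat.cast_zero, zero_add, one_mul, mul_zero, sub_zero]
    exact h2
  | succ k ih =>
    intro x y hx hy hk
    rcases (B ∩ Icc x y).eq_empty_or_nonempty with h1 | ⟨b, hb⟩
    · have h2 := h0 x y hx hy (disjoint_iff_inter_eq_empty.2 h1)
      rw [h1, card_empty, Nat.cast_zero, zero_add, one_mul, mul_zero, sub_zero]
      exact h2
    · rw [mem_inter, mem_Icc] at hb
      obtain ⟨hbB, hb1, hb2⟩ := hb
      have hd1 : Disjoint (B ∩ Icc x (b - 1)) (B ∩ Icc (b + 1) y) := by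
        rw [disjoint_left]
        intro p h1 h2
        rw [mem_inter, mem_Icc] at h1 h2
        omega
      have hd2 : b ∉ (B ∩ Icc x (b - 1)) ∪ (B ∩ Icc (b + 1) y) := by
        rw [mem_union, mem_inter, mem_inter, mem_Icc, mem_Icc]
        omega
      have hsub : insert b ((B ∩ Icc x (b - 1)) ∪ (B ∩ Icc (b + 1) y)) ⊆ B ∩ Icc x y := by
        intro p hp
        rw [mem_insert, mem_union, mem_inter, mem_inter, mem_Icc, mem_Icc] at hp
        rw [mem_inter, mem_Icc]
        rcases hp with rfl | hp | hp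
        · exact ⟨hbB, hb1, hb2⟩
        · exact ⟨hp.1, hp.2.1, by omega⟩
        · exact ⟨hp.1, by omega, hp.2.2⟩
      have hcard : #(B ∩ Icc x (b - 1)) + #(B ∩ Icc (b + 1) y) + 1 ≤ #(B ∩ Icc x y) := by
        have h1 := card_le_card hsub
        rwa [card_insert_of_notMem hd2, card_union_of_disjoint hd1] at h1
      have hcard2 : #(B ∩ Icc x y) ≤ #(B ∩ Icc x (b - 1)) + #(B ∩ Icc (b + 1) y) + 1 := by
        have h1 : B ∩ Icc x y ⊆ insert b ((B ∩ Icc x (b - 1)) ∪ (B ∩ Icc (b + 1) y)) := by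
          intro p hp
          rw [mem_inter, mem_Icc] at hp
          rw [mem_insert, mem_union, mem_inter, mem_inter, mem_Icc, mem_Icc]
          rcases lt_trichotomy p b with h | h | h
          · exact Or.inr (Or.inl ⟨hp.1, hp.2.1, by omega⟩)
          · exact Or.inl h
          · exact Or.inr (Or.inr ⟨hp.1, by omega, hp.2.2⟩)
        have h2 := card_le_card h1
        rwa [card_insert_of_notMem hd2, card_union_of_disjoint hd1] at h2
      have h1 := ih x (b - 1) hx (by omega) (by omega)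
      have h2 := ih (b + 1) y (by omega) hy (by omega)
      have h3 := th_cut hb1 hb2
      have h4 : (#(B ∩ Icc x y) : ℝ) = #(B ∩ Icc x (b - 1)) + #(B ∩ Icc (b + 1) y) + 1 := by
        exact_mod_cast le_antisymm hcard2 hcard
      rw [h4]
      have h5 : ((b - 1 : ℕ) : ℝ) = (b : ℝ) - 1 := by
        rw [Nat.cast_sub (by omega), Nat.cast_one]
      rw [h5] at h1
      push_cast at h2
      refine le_trans (le_of_eq ?_) ((add_le_add h1 h2).trans h3)
      ring

/-- what is used of `S_BVJ` -/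
def Piece : Prop := ∃ δ c : ℝ, 0 < δ ∧ 0 < c ∧ ∃ X₀ : ℕ, ∀ X : ℕ, X₀ ≤ X → ∃ B : Finset ℕ,
  (B.card : ℝ) ≤ (X : ℝ) ^ (1 / 2 - δ) ∧ ∀ x y : ℕ, X ≤ x → y ≤ 2 * X → (x : ℝ) + (X : ℝ) ^ (1 / 2 - δ) ≤ y →
  (y : ℝ) ≤ 1.1 * x → Disjoint B (Icc x y) → c * ((y : ℝ) - x) ≤ th x y

theorem pts_of_piece (h : Piece) : S_PTS := by
  classical
  obtain ⟨δ₁, c, hδ₁, hc, X₁, hP⟩ := h
  set δ₂ : ℝ := min δ₁ (1 / 4) with hδ₂
  have hδ₂p : 0 < δ₂ := lt_min hδ₁ (by norm_num)
  have hδ₂1 : δ₂ ≤ δ₁ := min_le_left _ _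
  have hδ₂4 : δ₂ ≤ 1 / 4 := min_le_right _ _
  refine ⟨δ₂ / 2, c, by linarith, by linarith, hc, fun L hL => ?_⟩
  set M : ℕ := ⌈20 * L⌉₊ with hM
  set K : ℝ := (M : ℝ) + 1 with hK
  have hM20 : 20 * L ≤ M := Nat.le_ceil _
  have hK1 : 1 ≤ K := by
    have : (0 : ℝ) ≤ M := Nat.cast_nonneg _
    linarith
  have htend : Tendsto (fun N : ℕ => (N : ℝ) ^ (δ₂ / 2)) atTop atTop :=
    (tendsto_rpow_atTop (by linarith)).comp tendsto_natCast_atTop_atTop
  obtain ⟨N₁, hN₁⟩ := eventually_atTop.1 (htend.eventually_ge_atTop (2 * K ^ 2 + K + 2))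
  refine ⟨max (max N₁ X₁) 20, fun X hX => ?_⟩
  have hXN : N₁ ≤ X := ((le_max_left _ _).trans (le_max_left _ _)).trans hX
  have hXX : X₁ ≤ X := ((le_max_right _ _).trans (le_max_left _ _)).trans hX
  have hX20 : 20 ≤ X := (le_max_right _ _).trans hX
  have hXr : (20 : ℝ) ≤ X := by exact_mod_cast hX20
  have hXp : (0 : ℝ) < X := by linarith
  have hbig := hN₁ X hXN
  set s : ℕ := X / 20 + 1 with hs
  have hs1 : (X : ℝ) / 20 ≤ s := by
    have h1 : X < 20 * s := by rw [hs]; omega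
    have h2 : (X : ℝ) < 20 * s := by exact_mod_cast h1
    linarith
  have hs2 : (s : ℝ) ≤ (X : ℝ) / 10 := by
    have h1 : 10 * s ≤ X := by rw [hs]; omega
    have h2 : (10 : ℝ) * s ≤ X := by exact_mod_cast h1
    linarith
  -- the cut points
  set Q : ℕ → ℕ := fun m => X + m * s with hQ
  have hQX : ∀ m, X ≤ Q m := fun m => Nat.le_add_right _ _
  have hQK : ∀ m ≤ M, ((Q m : ℕ) : ℝ) ≤ K * X := by
    intro m hm
    have h1 : ((Q m : ℕ) : ℝ) = X + m * s := by simp only [hQ]; push_cast; ring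
    have h2 : (m : ℝ) ≤ M := by exact_mod_cast hm
    have h3 : (0 : ℝ) ≤ m := Nat.cast_nonneg _
    rw [h1]
    nlinarith
  choose! Bf hBc hBf using hP
  set W : ℝ := K * (X : ℝ) ^ (1 / 2 - δ₂) with hW
  have hpow1 : (1 : ℝ) ≤ (X : ℝ) ^ (1 / 2 - δ₂) := Real.one_le_rpow (by linarith) (by linarith)
  have hQW : ∀ m ≤ M, ((Q m : ℕ) : ℝ) ^ (1 / 2 - δ₁) ≤ W := by
    intro m hm
    have h1 : (1 : ℝ) ≤ (Q m : ℕ) := by
      have : (X : ℝ) ≤ (Q m : ℕ) := by exact_mod_cast hQX m
      linarith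
    calc ((Q m : ℕ) : ℝ) ^ (1 / 2 - δ₁) ≤ ((Q m : ℕ) : ℝ) ^ (1 / 2 - δ₂) :=
          Real.rpow_le_rpow_of_exponent_le h1 (by linarith)
      _ ≤ (K * X) ^ (1 / 2 - δ₂) :=
          Real.rpow_le_rpow (by linarith) (hQK m hm) (by linarith)
      _ = K ^ (1 / 2 - δ₂) * (X : ℝ) ^ (1 / 2 - δ₂) := Real.mul_rpow (by linarith) hXp.le
      _ ≤ K * (X : ℝ) ^ (1 / 2 - δ₂) := by
          refine mul_le_mul_of_nonneg_right ?_ (by positivity)
          calc K ^ (1 / 2 - δ₂) ≤ K ^ (1 : ℝ) :=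
                Real.rpow_le_rpow_of_exponent_le hK1 (by linarith)
            _ = K := Real.rpow_one K
  have hexp : (X : ℝ) ^ (1 / 2 - δ₂ / 2) = (X : ℝ) ^ (δ₂ / 2) * (X : ℝ) ^ (1 / 2 - δ₂) := by
    rw [← Real.rpow_add hXp]
    congr 1
    ring
  have hWle : W + 2 ≤ (X : ℝ) ^ (1 / 2 - δ₂ / 2) := by
    rw [hexp, hW]
    nlinarith [sq_nonneg K]
  set B : Finset ℕ := (range (M + 1)).biUnion (fun m => insert (Q m) (Bf (Q m))) with hB
  refine ⟨B, ?_, ?_⟩
  · have h1 : (B.card : ℝ) ≤ ∑ m ∈ range (M + 1), ((insert (Q m) (Bf (Q m))).card : ℝ) := by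
      exact_mod_cast card_biUnion_le
    have h2 : ∑ m ∈ range (M + 1), ((insert (Q m) (Bf (Q m))).card : ℝ) ≤
        ∑ _m ∈ range (M + 1), (W + 1) := by
      refine sum_le_sum fun m hm => ?_
      have hm' : m ≤ M := Nat.lt_succ_iff.1 (mem_range.1 hm)
      have h3 : ((insert (Q m) (Bf (Q m))).card : ℝ) ≤ ((Bf (Q m)).card : ℝ) + 1 := by
        exact_mod_cast card_insert_le _ _
      have h4 := hBc (Q m) (hXX.trans (hQX m))
      have h5 := hQW m hm'
      linarith
    rw [sum_const, card_range, nsmul_eq_mul, Nat.cast_add, Nat.cast_one] at h2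
    refine (h1.trans h2).trans ?_
    rw [hexp, hW]
    have h3 : (2 * K ^ 2) * (X : ℝ) ^ (1 / 2 - δ₂) ≤
        (X : ℝ) ^ (δ₂ / 2) * (X : ℝ) ^ (1 / 2 - δ₂) :=
      mul_le_mul_of_nonneg_right (by linarith) (by positivity)
    refine le_trans ?_ h3
    have h4 : K * (K * (X : ℝ) ^ (1 / 2 - δ₂) + 1) ≤ 2 * K ^ 2 * (X : ℝ) ^ (1 / 2 - δ₂) := by
      have h5 : K ≤ K ^ 2 * (X : ℝ) ^ (1 / 2 - δ₂) := by nlinarith
      nlinarith
    exact h4
  · intro x y hx hy _
    have hYX : y ≤ ⌊L * X⌋₊ := Nat.le_floor hy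
    have hend : L * X < (Q M : ℕ) := by
      have h1 : ((Q M : ℕ) : ℝ) = X + M * s := by simp only [hQ]; push_cast; ring
      rw [h1]
      nlinarith
    have h0 : ∀ x y : ℕ, X ≤ x → y ≤ ⌊L * X⌋₊ → Disjoint B (Icc x y) →
        c * ((y : ℝ) - x - W) ≤ th x y := by
      intro x y hx hy hd
      by_cases hlen : (y : ℝ) - x - W ≤ 0
      · exact (mul_nonpos_of_nonneg_of_nonpos hc.le hlen).trans (th_nonneg x y)
      · have hlen' : W < (y : ℝ) - x := by linarith
        have hWp : 0 ≤ W := by positivity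
        have hxy : x ≤ y := by
          have : (x : ℝ) ≤ y := by linarith
          exact_mod_cast this
        have hyL : (y : ℝ) ≤ L * X := by
          have h1 : (y : ℝ) ≤ (⌊L * X⌋₊ : ℝ) := by exact_mod_cast hy
          exact h1.trans (Nat.floor_le (by positivity))
        -- the block
        set m : ℕ := (x - X) / s with hm
        have hsp : 0 < s := by rw [hs]; omega
        have hm1 : Q m ≤ x := by
          simp only [hQ]
          have := Nat.div_mul_le_self (x - X) s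
          rw [← hm] at this
          omega
        have hm2 : x < Q (m + 1) := by
          simp only [hQ]
          have := Nat.lt_div_mul_add (a := x - X) hsp
          rw [← hm] at this
          have h3 : (m + 1) * s = m * s + s := by ring
          omega
        have hmM : m < M := by
          by_contra hcon
          have h3 : Q M ≤ Q m := by
            simp only [hQ]
            exact Nat.add_le_add_left (Nat.mul_le_mul_right _ (not_lt.1 hcon)) _
          have h4 : ((Q M : ℕ) : ℝ) ≤ y := by exact_mod_cast (h3.trans hm1).trans hxy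
          linarith
        have hQB : Q (m + 1) ∈ B := by
          rw [hB, mem_biUnion]
          exact ⟨m + 1, mem_range.2 (by omega), mem_insert_self _ _⟩
        have hyQ : y < Q (m + 1) := by
          by_contra hcon
          exact disjoint_left.1 hd hQB (mem_Icc.2 ⟨hm2.le, not_lt.1 hcon⟩)
        have hQs : Q (m + 1) = Q m + s := by simp only [hQ]; ring
        have hdB : Disjoint (Bf (Q m)) (Icc x y) := by
          refine disjoint_of_subset_left ?_ hd
          intro p hp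
          rw [hB, mem_biUnion]
          exact ⟨m, mem_range.2 (by omega), mem_insert_of_mem hp⟩
        have hsX : s ≤ X := by
          have : (s : ℝ) ≤ X := by linarith
          exact_mod_cast this
        have hfin := hBf (Q m) (hXX.trans (hQX m)) x y hm1
          (by have := hQX m; omega)
          (by have := hQW m hmM.le; linarith)
          (by
            have h3 : (y : ℝ) < (Q m : ℕ) + s := by
              have : y < Q m + s := by omega
              exact_mod_cast this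
            have h4 : ((Q m : ℕ) : ℝ) ≤ x := by exact_mod_cast hm1
            have h5 : (X : ℝ) ≤ x := by exact_mod_cast hx
            linarith) hdB
        refine le_trans ?_ hfin
        exact mul_le_mul_of_nonneg_left (by linarith) hc.le
    have h1 := cut_ind B c W X ⌊L * X⌋₊ (by omega) h0 _ x y hx hYX le_rfl
    refine le_trans (mul_le_mul_of_nonneg_left ?_ hc.le) h1
    have h2 : (0 : ℝ) ≤ #(B ∩ Icc x y) := Nat.cast_nonneg _
    nlinarith

end Pool.Agent.L7h21.ME
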