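import Pool.Agent.L7h2.ME.Stm

/-!
# Project ME, part (RES): few pairs are resonant
-/

set_option autoImplicit false

namespace Pool.Agent.L7h21.ME

open Finset Filter Topology
open Pool.Agent.L7h2.ME

/-- the number of the integers whose distance to `x` is less than `W` -/
lemma card_near (s : Finset ℤ) (x W : ℝ) (hW : 0 ≤ W) (h : ∀ m ∈ s, |(m : ℝ) - x| < W) :
    (s.card : ℝ) ≤ 2 * W + 1 := by
  have h1 : s ⊆ Icc ⌈x - W⌉ ⌊x + W⌋ := by
    intro m hm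
    have h2 := abs_lt.1 (h m hm)
    rw [mem_Icc, Int.ceil_le, Int.le_floor]
    constructor <;> linarith
  have h2 : (s.card : ℝ) ≤ ((Icc ⌈x - W⌉ ⌊x + W⌋).card : ℝ) := by exact_mod_cast card_le_card h1
  rw [Int.card_Icc] at h2
  have h3 : (((⌊x + W⌋ + 1 - ⌈x - W⌉).toNat : ℕ) : ℝ) ≤ 2 * W + 1 := by
    rcases le_total 0 (⌊x + W⌋ + 1 - ⌈x - W⌉) with h4 | h4
    · have h5 : (((⌊x + W⌋ + 1 - ⌈x - W⌉).toNat : ℕ) : ℝ) =
          ((⌊x + W⌋ + 1 - ⌈x - W⌉ : ℤ) : ℝ) := by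
        exact_mod_cast congrArg (fun z : ℤ => (z : ℝ)) (Int.toNat_of_nonneg h4)
      rw [h5]
      push_cast
      linarith [Int.floor_le (x + W), Int.le_ceil (x - W)]
    · rw [Int.toNat_of_nonpos h4]
      push_cast
      linarith
  exact h2.trans h3

/-- the second entries of the resonances with given data -/
lemma card_fibre (e N : ℕ) (he : 1 ≤ e) (hN : 1 ≤ N) (d d' : ℕ) (hd : 1 ≤ d) (hd' : 1 ≤ d')
    (hdN : (d : ℝ) ≤ (N : ℝ) ^ (1 / 50 : ℝ)) (hdN' : (d' : ℝ) ≤ (N : ℝ) ^ (1 / 50 : ℝ)) (l l' : ℤ)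
    (hl : l ≠ 0 ∨ l' ≠ 0) (n : ℕ) (hn : N < n) (s : Finset ℕ)
    (hs : ∀ n' ∈ s, |(l : ℝ) * (n : ℝ) ^ e / d + (l' : ℝ) * (n' : ℝ) ^ e / d'| <
      (N : ℝ) ^ (13 / 100 : ℝ)) :
    (s.card : ℝ) ≤ 2 * (N : ℝ) ^ (15 / 100 : ℝ) + 1 := by
  have hN0 : (1 : ℝ) ≤ N := by exact_mod_cast hN
  have hNp : (0 : ℝ) < N := by linarith
  have hdp : (0 : ℝ) < d := by exact_mod_cast hd
  have hdp' : (0 : ℝ) < d' := by exact_mod_cast hd'
  by_cases hl' : l' = 0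
  · -- no resonance
    have hs0 : s = ∅ := by
      rw [eq_empty_iff_forall_notMem]
      intro n' hn'
      have h1 := hs n' hn'
      have hl0 : l ≠ 0 := hl.resolve_right (by simpa using hl')
      have h2 : (1 : ℝ) ≤ |(l : ℝ)| := by
        have := Int.one_le_abs hl0
        exact_mod_cast this
      rw [hl', Int.cast_zero, zero_mul, zero_div, add_zero, abs_div, abs_mul, abs_of_pos hdp,
        abs_of_nonneg (by positivity : (0 : ℝ) ≤ (n : ℝ) ^ e), div_lt_iff₀ hdp] at h1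
      have h3 : (N : ℝ) ≤ (n : ℝ) ^ e := by
        have h4 : (N : ℝ) ≤ n := by exact_mod_cast hn.le
        have h5 : (n : ℝ) ≤ (n : ℝ) ^ e := le_self_pow₀ (hN0.trans h4) (by omega)
        exact h4.trans h5
      have h4 : (N : ℝ) ≤ |(l : ℝ)| * (n : ℝ) ^ e := by nlinarith
      have h5 : (N : ℝ) ^ (13 / 100 : ℝ) * d ≤ (N : ℝ) := by
        calc (N : ℝ) ^ (13 / 100 : ℝ) * d ≤ (N : ℝ) ^ (13 / 100 : ℝ) * (N : ℝ) ^ (1 / 50 : ℝ) :=
              mul_le_mul_of_nonneg_left hdN (by positivity)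
          _ = (N : ℝ) ^ (15 / 100 : ℝ) := by
              rw [← Real.rpow_add hNp]; norm_num
          _ ≤ (N : ℝ) ^ (1 : ℝ) := Real.rpow_le_rpow_of_exponent_le hN0 (by norm_num)
          _ = N := Real.rpow_one _
      linarith
    rw [hs0, card_empty, Nat.cast_zero]
    positivity
  · have hl0 : (0 : ℝ) < |(l' : ℝ)| := abs_pos.2 (by exact_mod_cast hl')
    have hl1 : (1 : ℝ) ≤ |(l' : ℝ)| := by
      have := Int.one_le_abs hl'
      exact_mod_cast this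
    have hinj : Set.InjOn (fun n' : ℕ => ((n' : ℤ) ^ e)) s := by
      intro a _ b _ hab
      have h1 : ((a ^ e : ℕ) : ℤ) = ((b ^ e : ℕ) : ℤ) := by
        push_cast
        exact hab
      exact Nat.pow_left_injective (n := e) (by omega) (by exact_mod_cast h1)
    rw [← card_image_of_injOn hinj]
    apply card_near _ (-((l : ℝ) * (n : ℝ) ^ e / d * d' / l')) _ (by positivity)
    intro m hm
    obtain ⟨n', hn', rfl⟩ := mem_image.1 hm
    have h1 := hs n' hn'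
    have h2 : (((n' : ℤ) ^ e : ℤ) : ℝ) - -((l : ℝ) * (n : ℝ) ^ e / d * d' / l') =
        ((l : ℝ) * (n : ℝ) ^ e / d + (l' : ℝ) * (n' : ℝ) ^ e / d') * (d' / l') := by
      have hl2 : (l' : ℝ) ≠ 0 := by exact_mod_cast hl'
      push_cast
      field_simp
      ring
    rw [h2, abs_mul]
    have h3 : |(d' : ℝ) / l'| ≤ (N : ℝ) ^ (1 / 50 : ℝ) := by
      rw [abs_div, abs_of_pos hdp', div_le_iff₀ hl0]
      nlinarith [Real.rpow_nonneg hNp.le (1 / 50 : ℝ)]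
    have h4 : (0 : ℝ) < |(d' : ℝ) / l'| := by
      rw [abs_div, abs_of_pos hdp']
      positivity
    calc _ < (N : ℝ) ^ (13 / 100 : ℝ) * |(d' : ℝ) / l'| := mul_lt_mul_of_pos_right h1 h4
      _ ≤ (N : ℝ) ^ (13 / 100 : ℝ) * (N : ℝ) ^ (1 / 50 : ℝ) :=
          mul_le_mul_of_nonneg_left h3 (by positivity)
      _ = (N : ℝ) ^ (15 / 100 : ℝ) := by rw [← Real.rpow_add hNp]; norm_num

open Classical in
/-- the second entries of the resonances with the data `q = (d, d', l, l')` and first entry `n` -/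
noncomputable def fib (e N : ℕ) (q : (ℕ × ℕ) × (ℤ × ℤ)) (n : ℕ) : Finset ℕ :=
  if q.2.1 ≠ 0 ∨ q.2.2 ≠ 0 then
    (Ioc N (2 * N)).filter (fun n' =>
      |(q.2.1 : ℝ) * (n : ℝ) ^ e / q.1.1 + (q.2.2 : ℝ) * (n' : ℝ) ^ e / q.1.2| <
        (N : ℝ) ^ (13 / 100 : ℝ))
  else ∅

theorem s_RES : S_RES := by
  classical
  intro e he
  have htend : Tendsto (fun N : ℕ => (N : ℝ) ^ (27 / 100 : ℝ)) atTop atTop :=
    (tendsto_rpow_atTop (by norm_num)).comp tendsto_natCast_atTop_atTop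
  obtain ⟨N₁, hN₁⟩ := eventually_atTop.1 (htend.eventually_ge_atTop 12)
  refine ⟨max N₁ 1, fun N hN => ?_⟩
  have hN1 : 1 ≤ N := (le_max_right _ _).trans hN
  have h12 : (12 : ℝ) ≤ (N : ℝ) ^ (27 / 100 : ℝ) := hN₁ N ((le_max_left _ _).trans hN)
  have hN0 : (1 : ℝ) ≤ N := by exact_mod_cast hN1
  have hNp : (0 : ℝ) < N := by linarith
  set D : ℕ := ⌊(N : ℝ) ^ (1 / 50 : ℝ)⌋₊ with hD
  have hDle : (D : ℝ) ≤ (N : ℝ) ^ (1 / 50 : ℝ) := Nat.floor_le (by positivity)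
  set Q : Finset ((ℕ × ℕ) × (ℤ × ℤ)) :=
    (Icc 1 D ×ˢ Icc 1 D) ×ˢ (Ioo (-(D : ℤ)) D ×ˢ Ioo (-(D : ℤ)) D) with hQ
  have hsub : (Ioc N (2 * N) ×ˢ Ioc N (2 * N)).filter (fun p => Res e N p.1 p.2) ⊆
      (Q ×ˢ Ioc N (2 * N)).biUnion (fun z => (fib e N z.1 z.2).image (fun n' => (z.2, n'))) := by
    rintro ⟨n, n'⟩ hp
    rw [mem_filter, mem_product] at hp
    obtain ⟨⟨hn, hn'⟩, d, d', hd, hd', hdN, hdN', l, l', hl, hl', h0, hr⟩ := hp
    have hdD : d ≤ D := Nat.le_floor hdN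
    have hdD' : d' ≤ D := Nat.le_floor hdN'
    rw [mem_biUnion]
    refine ⟨(((d, d'), (l, l')), n), ?_, ?_⟩
    · have h1 := abs_lt.1 hl
      have h2 := abs_lt.1 hl'
      simp only [hQ, mem_product, mem_Icc, mem_Ioo]
      exact ⟨⟨⟨⟨hd, hdD⟩, hd', hdD'⟩, ⟨by omega, by omega⟩, by omega, by omega⟩, hn⟩
    · rw [mem_image]
      refine ⟨n', ?_, rfl⟩
      simp only [fib]
      rw [if_pos h0, mem_filter]
      exact ⟨hn', hr⟩
  have hfib : ∀ z ∈ Q ×ˢ Ioc N (2 * N), (((fib e N z.1 z.2).image (fun n' => (z.2, n'))).card : ℝ)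
      ≤ 2 * (N : ℝ) ^ (15 / 100 : ℝ) + 1 := by
    rintro ⟨⟨⟨d, d'⟩, l, l'⟩, n⟩ hz
    simp only [hQ, mem_product, mem_Icc, mem_Ioc] at hz
    obtain ⟨⟨⟨⟨hd, hdD⟩, hd', hdD'⟩, _⟩, hn, _⟩ := hz
    have h1 : (d : ℝ) ≤ (N : ℝ) ^ (1 / 50 : ℝ) := by
      have : (d : ℝ) ≤ D := by exact_mod_cast hdD
      exact this.trans hDle
    have h2 : (d' : ℝ) ≤ (N : ℝ) ^ (1 / 50 : ℝ) := by
      have : (d' : ℝ) ≤ D := by exact_mod_cast hdD'
      exact this.trans hDle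
    have h3 : (((fib e N ((d, d'), l, l') n).image (fun n' => (n, n'))).card : ℝ) ≤
        ((fib e N ((d, d'), l, l') n).card : ℝ) := by exact_mod_cast card_image_le
    refine h3.trans ?_
    simp only [fib]
    split_ifs with h0
    · exact card_fibre e N he hN1 d d' hd hd' h1 h2 l l' h0 n hn _
        (fun n' hn' => (mem_filter.1 hn').2)
    · rw [card_empty, Nat.cast_zero]
      positivity
  have hcardQ : (Q.card : ℝ) ≤ 4 * (N : ℝ) ^ (8 / 100 : ℝ) := by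
    have h1 : (Q.card : ℝ) ≤ 4 * (D : ℝ) ^ 4 := by
      have h2 : (Ioo (-(D : ℤ)) D).card ≤ 2 * D := by
        rw [Int.card_Ioo]
        omega
      have h3 : Q.card ≤ (D * D) * ((2 * D) * (2 * D)) := by
        rw [hQ, card_product, card_product, card_product, Nat.card_Icc, Nat.add_sub_cancel]
        exact Nat.mul_le_mul le_rfl (Nat.mul_le_mul h2 h2)
      calc (Q.card : ℝ) ≤ (((D * D) * ((2 * D) * (2 * D)) : ℕ) : ℝ) := by exact_mod_cast h3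
        _ = 4 * (D : ℝ) ^ 4 := by push_cast; ring
    refine h1.trans ?_
    have h2 : (D : ℝ) ^ 4 ≤ ((N : ℝ) ^ (1 / 50 : ℝ)) ^ 4 := pow_le_pow_left₀ (by positivity) hDle 4
    have h3 : ((N : ℝ) ^ (1 / 50 : ℝ)) ^ 4 = (N : ℝ) ^ (8 / 100 : ℝ) := by
      rw [← Real.rpow_natCast, ← Real.rpow_mul hNp.le]
      norm_num
    rw [h3] at h2
    linarith
  have hcard : ((Q ×ˢ Ioc N (2 * N)).card : ℝ) ≤ 4 * (N : ℝ) ^ (8 / 100 : ℝ) * N := by
    rw [card_product, Nat.card_Ioc]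
    have h1 : 2 * N - N = N := by omega
    rw [h1]
    push_cast
    exact mul_le_mul_of_nonneg_right hcardQ hNp.le
  calc (#((Ioc N (2 * N) ×ˢ Ioc N (2 * N)).filter (fun p => Res e N p.1 p.2)) : ℝ)
      ≤ (((Q ×ˢ Ioc N (2 * N)).biUnion
          (fun z => (fib e N z.1 z.2).image (fun n' => (z.2, n')))).card : ℝ) := by
        exact_mod_cast card_le_card hsub
    _ ≤ ∑ z ∈ Q ×ˢ Ioc N (2 * N), (((fib e N z.1 z.2).image (fun n' => (z.2, n'))).card : ℝ) := by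
        exact_mod_cast card_biUnion_le
    _ ≤ ∑ _z ∈ Q ×ˢ Ioc N (2 * N), (2 * (N : ℝ) ^ (15 / 100 : ℝ) + 1) := sum_le_sum hfib
    _ = ((Q ×ˢ Ioc N (2 * N)).card : ℝ) * (2 * (N : ℝ) ^ (15 / 100 : ℝ) + 1) := by
        rw [sum_const, nsmul_eq_mul]
    _ ≤ (4 * (N : ℝ) ^ (8 / 100 : ℝ) * N) * (3 * (N : ℝ) ^ (15 / 100 : ℝ)) := by
        refine mul_le_mul hcard ?_ (by positivity) (by positivity)
        have h1 : (1 : ℝ) ≤ (N : ℝ) ^ (15 / 100 : ℝ) := Real.one_le_rpow hN0 (by norm_num)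
        linarith
    _ = 12 * ((N : ℝ) ^ (8 / 100 : ℝ) * (N : ℝ) ^ (1 : ℝ) * (N : ℝ) ^ (15 / 100 : ℝ)) := by
        rw [Real.rpow_one]; ring
    _ = 12 * (N : ℝ) ^ (123 / 100 : ℝ) := by
        rw [← Real.rpow_add hNp, ← Real.rpow_add hNp]; norm_num
    _ ≤ (N : ℝ) ^ (27 / 100 : ℝ) * (N : ℝ) ^ (123 / 100 : ℝ) :=
        mul_le_mul_of_nonneg_right h12 (by positivity)
    _ = (N : ℝ) ^ (3 / 2 : ℝ) := by rw [← Real.rpow_add hNp]; norm_num

end Pool.Agent.L7h21.ME
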