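import Pool.Agent.L7h2.ME.Stm

/-!
# Project ME, part (ZO): a zero-one law from Lebesgue's density theorem
-/

set_option autoImplicit false

namespace Pool.Agent.L7h21.ME

open MeasureTheory Filter Topology
open Pool.Agent.L7h2.ME

/-- the closed ball of the sup norm is a cube -/
lemma ball_eq {k : ℕ} (x : Fin k → ℝ) {r : ℝ} (hr : 0 ≤ r) :
    Metric.closedBall x r = Set.Icc (fun i => x i - r) (fun i => x i + r) := by
  rw [closedBall_pi x hr, ← Set.pi_univ_Icc]
  simp only [Real.closedBall_eq_Icc]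

/-- the lower bound for the upper limit of the sets `E N` in a cube -/
lemma lim_ge {k : ℕ} (E : ℕ → Set (Fin k → ℝ)) (hE : ∀ N, MeasurableSet (E N)) (c : ℝ) (hc : 0 < c)
    (a b : Fin k → ℝ) (hab : ∀ i, a i < b i)
    (h : ∃ N₀ : ℕ, ∀ N : ℕ, N₀ ≤ N →
      c * ∏ i, (b i - a i) ≤ volume.real {α | (∀ i, α i ∈ Set.Ioc (a i) (b i)) ∧ α ∈ E N}) :
    ENNReal.ofReal c * volume (Set.Icc a b) ≤ volume (limsup E atTop ∩ Set.Icc a b) := by
  obtain ⟨N₀, h⟩ := h
  have hfin : volume (Set.Icc a b) ≠ ⊤ := isCompact_Icc.measure_ne_top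
  set G : ℕ → Set (Fin k → ℝ) := fun n => (⋃ N, ⋃ _ : n ≤ N, E N) ∩ Set.Icc a b with hG
  have hGm : ∀ n, MeasurableSet (G n) := fun n =>
    (MeasurableSet.iUnion fun N => MeasurableSet.iUnion fun _ => hE N).inter measurableSet_Icc
  have hanti : Antitone G := by
    intro n m hnm x hx
    refine ⟨?_, hx.2⟩
    obtain ⟨N, hN⟩ := Set.mem_iUnion.1 hx.1
    obtain ⟨h1, h2⟩ := Set.mem_iUnion.1 hN
    exact Set.mem_iUnion.2 ⟨N, Set.mem_iUnion.2 ⟨hnm.trans h1, h2⟩⟩
  have hlim : limsup E atTop ∩ Set.Icc a b = ⋂ n, G n := by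
    ext x
    rw [Set.mem_inter_iff, Set.mem_iInter, limsup_eq_iInf_iSup_of_nat]
    simp only [Set.iInf_eq_iInter, Set.iSup_eq_iUnion, Set.mem_iInter]
    constructor
    · rintro ⟨h1, h2⟩ n
      exact ⟨h1 n, h2⟩
    · intro h1
      exact ⟨fun n => (h1 n).1, (h1 0).2⟩
  have htend := tendsto_measure_iInter_atTop (μ := volume) (s := G)
    (fun n => (hGm n).nullMeasurableSet) hanti
    ⟨0, ((measure_mono Set.inter_subset_right).trans_lt hfin.lt_top).ne⟩
  rw [hlim]
  refine ge_of_tendsto htend (Eventually.of_forall fun n => ?_)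
  have h1 := h (max n N₀) (le_max_right _ _)
  have hvol : volume (Set.Icc a b) = ENNReal.ofReal (∏ i, (b i - a i)) := by
    rw [Real.volume_Icc_pi, ENNReal.ofReal_prod_of_nonneg]
    exact fun i _ => (sub_pos.2 (hab i)).le
  rw [hvol, ← ENNReal.ofReal_mul hc.le]
  refine (ENNReal.ofReal_le_ofReal h1).trans ?_
  refine ENNReal.ofReal_toReal_le.trans (measure_mono ?_)
  rintro x ⟨hx1, hx2⟩
  refine ⟨Set.mem_iUnion.2 ⟨max n N₀, Set.mem_iUnion.2 ⟨le_max_left _ _, hx2⟩⟩, ?_⟩
  exact ⟨fun i => (hx1 i).1.le, fun i => (hx1 i).2⟩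

theorem s_ZO : S_ZO := by
  intro k E hE U hU c hc h
  have hF : MeasurableSet (limsup E atTop) := MeasurableSet.measurableSet_limsup hE
  have hS : MeasurableSet (U \ limsup E atTop) := hU.measurableSet.diff hF
  have h1 := Besicovitch.ae_tendsto_measure_inter_div (volume : Measure (Fin k → ℝ))
    (U \ limsup E atTop)
  have h2 := ae_restrict_mem (μ := (volume : Measure (Fin k → ℝ))) hS
  have h3 : ∀ᵐ x ∂(volume : Measure (Fin k → ℝ)).restrict (U \ limsup E atTop), False := by
    filter_upwards [h1, h2] with x hx hxS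
    obtain ⟨ε, hε, hεU⟩ := Metric.isOpen_iff.1 hU x hxS.1
    have h4 : ∀ᶠ r in 𝓝[>] (0 : ℝ),
        volume ((U \ limsup E atTop) ∩ Metric.closedBall x r) / volume (Metric.closedBall x r) +
          ENNReal.ofReal c ≤ 1 := by
      filter_upwards [Ioo_mem_nhdsGT hε] with r hr
      have hr0 : 0 < r := hr.1
      have hsub : Metric.closedBall x r ⊆ U :=
        (Metric.closedBall_subset_ball hr.2).trans hεU
      rw [ball_eq x hr0.le] at hsub ⊢
      have h5 := lim_ge E hE c hc (fun i => x i - r) (fun i => x i + r)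
        (fun i => by linarith) (h _ _ (fun i => by linarith) hsub)
      set B := Set.Icc (fun i => x i - r) (fun i => x i + r) with hB
      have hBfin : volume B ≠ ⊤ := isCompact_Icc.measure_ne_top
      have hBpos : volume B ≠ 0 := by
        rw [hB, Real.volume_Icc_pi]
        refine Finset.prod_ne_zero_iff.2 fun i _ => ?_
        rw [ne_eq, ENNReal.ofReal_eq_zero, not_le]
        linarith
      have h6 : volume ((U \ limsup E atTop) ∩ B) + volume (limsup E atTop ∩ B) ≤ volume B := by
        rw [← measure_union _ (hF.inter measurableSet_Icc)]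
        · exact measure_mono (Set.union_subset Set.inter_subset_right Set.inter_subset_right)
        · rw [Set.disjoint_left]
          rintro y ⟨hy1, _⟩ ⟨hy2, _⟩
          exact hy1.2 hy2
      have h7 : volume ((U \ limsup E atTop) ∩ B) / volume B + ENNReal.ofReal c =
          (volume ((U \ limsup E atTop) ∩ B) + ENNReal.ofReal c * volume B) / volume B := by
        rw [ENNReal.add_div, ENNReal.mul_div_cancel_right hBpos hBfin]
      rw [h7]
      exact ENNReal.div_le_of_le_mul (by rw [one_mul]; exact (add_le_add_right h5 _).trans h6)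
    have h5 : (1 : ENNReal) + ENNReal.ofReal c ≤ 1 :=
      le_of_tendsto (hx.add tendsto_const_nhds) h4
    have h6 : (1 : ENNReal) < 1 + ENNReal.ofReal c :=
      ENNReal.lt_add_right ENNReal.one_ne_top (by
        rw [ne_eq, ENNReal.ofReal_eq_zero, not_le]; exact hc)
    exact absurd h5 (not_le.2 h6)
  have h8 : (volume : Measure (Fin k → ℝ)) (U \ limsup E atTop) = 0 := by
    have h9 : (volume : Measure (Fin k → ℝ)).restrict (U \ limsup E atTop) = 0 :=
      ae_eq_bot.1 (by rwa [eventually_false_iff_eq_bot] at h3)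
    rwa [Measure.restrict_eq_zero] at h9
  filter_upwards [compl_mem_ae_iff.2 h8] with x hx hxU
  have h9 : x ∈ limsup E atTop := by
    by_contra h10
    exact hx ⟨hxU, h10⟩
  rwa [mem_limsup_iff_frequently_mem] at h9

end Pool.Agent.L7h21.ME
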